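import Pool.Agent.Lib.MP_6bc78b_nt.LW.Iface
import Pool.Agent.Lib.MP_6bc78b_nt.MS.P1.EDG1

/-! Project LW, module W2: right line = diagonal + near-diagonal. -/

set_option autoImplicit false

open Complex Filter Topology MeasureTheory

namespace Pool.Agent.Lib.MP_6bc78b_nt.LW.H81

open Pool.Agent.Lib.MP_6bc78b_nt
open Pool.Agent.Lib.MP_6bc78b_nt.MS Pool.Agent.Lib.MP_6bc78b_nt.MS.P1
open Pool.Agent.Lib.MP_6bc78b_nt.MS.P5.HM
open Pool.Agent.Lib.MP_6bc78b_nt.LW

/-- size of the kernel, `1/2 ≤ c < 3/2`. -/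
lemma kernel_bound {D c x : ℝ} (hD : 2 ≤ D) (hc1 : 1 / 2 ≤ c) (hc2 : c < 3 / 2) :
    Real.exp (-(1 / 2) * x - D ^ 2 * x ^ 2 / 4) ≤
      3 * Real.exp (-(c * x)) * Real.exp (-(D ^ 2 * x ^ 2 / 8)) := by
  have h3 : (3 : ℝ) = Real.exp (Real.log 3) := (Real.exp_log (by norm_num)).symm
  rw [h3, ← Real.exp_add, ← Real.exp_add, Real.exp_le_exp]
  have hlog : (1 : ℝ) / 2 ≤ Real.log 3 := by
    have h1 := Real.one_sub_inv_le_log_of_pos (show (0:ℝ) < 3 by norm_num)
    norm_num at h1 ⊢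
    linarith
  have h4 : (c - 1 / 2) * x ≤ |x| := by
    rcases le_total 0 x with h | h
    · rw [abs_of_nonneg h]; nlinarith
    · rw [abs_of_nonpos h]; nlinarith
  have h5 : |x| ≤ D ^ 2 * x ^ 2 / 8 + 1 / 2 := by
    have h6 : x ^ 2 = |x| ^ 2 := (sq_abs x).symm
    rw [h6]
    have h7 : 4 * |x| ^ 2 ≤ D ^ 2 * |x| ^ 2 :=
      mul_le_mul_of_nonneg_right (by nlinarith) (sq_nonneg _)
    nlinarith [sq_nonneg (|x| - 1)]
  linarith

/-- The value of the kernel. -/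
noncomputable def kap (t H : ℝ) (n k : ℕ) : ℂ :=
  (cL H : ℂ) * Complex.exp (-(1 / 2 + t * I) * Real.log ((n : ℝ) / k) -
    H ^ 2 * (Real.log ((n : ℝ) / k)) ^ 2 / 4)

lemma VI_quot (hG : GauLStatement) {t H : ℝ} (c : ℝ) (hH : 0 < H) {n k : ℕ} (hn : n ≠ 0)
    (hk : k ≠ 0) :
    VI c (fun s => WL t H s * (k : ℂ) ^ s * (n : ℂ) ^ (-s)) = kap t H n k := by
  have hn' : (0 : ℝ) < n := by exact_mod_cast Nat.pos_of_ne_zero hn
  have hk' : (0 : ℝ) < k := by exact_mod_cast Nat.pos_of_ne_zero hk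
  unfold kap
  rw [← (hG.2.2.2 t H c ((n : ℝ) / k) hH (div_pos hn' hk')).2]
  congr 1
  funext s
  rw [mul_assoc, EDG1.quot_cpow hn hk]

lemma integrable_W (hG : GauLStatement) {t H : ℝ} (c : ℝ) (hH : 0 < H) {k : ℕ} (hk : k ≠ 0) :
    Integrable (fun y : ℝ => WL t H (c + y * I) * (k : ℂ) ^ ((c : ℂ) + y * I)) := by
  have hk' : (0 : ℝ) < k := by exact_mod_cast Nat.pos_of_ne_zero hk
  have h := (hG.2.2.2 t H c (((1 : ℕ) : ℝ) / k) hH (by positivity)).1
  refine h.congr (Filter.Eventually.of_forall fun y => ?_)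
  simp only
  rw [← EDG1.quot_cpow one_ne_zero hk]
  simp

lemma norm_kap {t H : ℝ} (hH : 0 < H) (n k : ℕ) :
    ‖kap t H n k‖ = cL H * Real.exp (-(1 / 2) * Real.log ((n : ℝ) / k) -
      H ^ 2 * Real.log ((n : ℝ) / k) ^ 2 / 4) := by
  unfold kap
  set x := Real.log ((n : ℝ) / k)
  have hc : 0 < cL H := by unfold cL; positivity
  have h1 : (-(1 / 2 + (t : ℂ) * I) * x - (H : ℂ) ^ 2 * (x : ℂ) ^ 2 / 4) =
      ((-(1 / 2) * x - H ^ 2 * x ^ 2 / 4 : ℝ) : ℂ) + ((-(t * x) : ℝ) : ℂ) * I := by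
    push_cast
    ring
  have h2 : (-(1 / 2 + (t : ℂ) * I) * x - (H : ℂ) ^ 2 * (x : ℂ) ^ 2 / 4).re =
      -(1 / 2) * x - H ^ 2 * x ^ 2 / 4 := by
    rw [h1, Complex.add_re, Complex.ofReal_re, Complex.re_ofReal_mul, Complex.I_re, mul_zero,
      add_zero]
  rw [norm_mul, Complex.norm_real, Real.norm_eq_abs, abs_of_pos hc, Complex.norm_exp, h2]

/-- a far term. -/
lemma far_bound {t H c L : ℝ} (hH : 2 ≤ H) (hc1 : 1 / 2 ≤ c) (hc2 : c < 3 / 2) (hL : 0 ≤ L)
    {n k : ℕ} (hn : n ≠ 0) (hk : k ≠ 0) (hx : L ≤ H * |Real.log n - Real.log k|) :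
    ‖kap t H n k‖ ≤ (n : ℝ) ^ (-c) * (3 * cL H * (k : ℝ) ^ c * Real.exp (-(L ^ 2 / 8))) := by
  have hn' : (0 : ℝ) < n := by exact_mod_cast Nat.pos_of_ne_zero hn
  have hk' : (0 : ℝ) < k := by exact_mod_cast Nat.pos_of_ne_zero hk
  have hc : 0 < cL H := by unfold cL; positivity
  rw [norm_kap (by linarith) n k]
  rw [← Real.log_div hn'.ne' hk'.ne'] at hx
  set x := Real.log ((n : ℝ) / k) with hxdef
  have h1 := kernel_bound (x := x) hH hc1 hc2
  have h2 : Real.exp (-(c * x)) = (n : ℝ) ^ (-c) * (k : ℝ) ^ c := by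
    rw [hxdef, Real.log_div hn'.ne' hk'.ne', Real.rpow_def_of_pos hn', Real.rpow_def_of_pos hk',
      ← Real.exp_add]
    congr 1
    ring
  have h3 : Real.exp (-(H ^ 2 * x ^ 2 / 8)) ≤ Real.exp (-(L ^ 2 / 8)) := by
    rw [Real.exp_le_exp]
    have h4 : L ^ 2 ≤ (H * |x|) ^ 2 := pow_le_pow_left₀ hL hx 2
    rw [mul_pow, sq_abs] at h4
    linarith
  rw [h2] at h1
  have h4 : 0 ≤ (n : ℝ) ^ (-c) * (k : ℝ) ^ c := by positivity
  calc cL H * Real.exp (-(1 / 2) * x - H ^ 2 * x ^ 2 / 4)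
      ≤ cL H * (3 * ((n : ℝ) ^ (-c) * (k : ℝ) ^ c) * Real.exp (-(H ^ 2 * x ^ 2 / 8))) :=
        mul_le_mul_of_nonneg_left h1 hc.le
    _ ≤ cL H * (3 * ((n : ℝ) ^ (-c) * (k : ℝ) ^ c) * Real.exp (-(L ^ 2 / 8))) := by
        refine mul_le_mul_of_nonneg_left ?_ hc.le
        exact mul_le_mul_of_nonneg_left h3 (by positivity)
    _ = _ := by ring

/-- the sum over `n` for one `k`. -/
lemma one_k (hG : GauLStatement) (hS : SwapStatement) {t H c L : ℝ} (hH : 2 ≤ H)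
    (hc1 : 1 / 2 ≤ c) (hc2 : c < 3 / 2) (hL : 0 ≤ L) {k : ℕ} (hk : k ≠ 0) (a : ℕ → ℂ)
    (hsum : Summable (fun n : ℕ => ‖a n‖ * (n : ℝ) ^ (-c))) (S : Finset ℕ)
    (hS0 : ∀ n ∈ S, n ≠ 0)
    (hSf : ∀ n : ℕ, n ≠ 0 → n ∉ S → L ≤ H * |Real.log n - Real.log k|) :
    Integrable (fun y : ℝ => LSeries a (c + y * I) *
      (WL t H (c + y * I) * (k : ℂ) ^ ((c : ℂ) + y * I))) ∧
    ‖VI c (fun s => LSeries a s * (WL t H s * (k : ℂ) ^ s)) - ∑ n ∈ S, a n * kap t H n k‖ ≤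
      (∑' n : ℕ, ‖a n‖ * (n : ℝ) ^ (-c)) *
        (3 * cL H * (k : ℝ) ^ c * Real.exp (-(L ^ 2 / 8))) := by
  have hH0 : 0 < H := by linarith
  have hcL : 0 < cL H := by unfold cL; positivity
  obtain ⟨h1, h2, h3⟩ := hS c a (fun s => WL t H s * (k : ℂ) ^ s) hsum (integrable_W hG c hH0 hk)
  refine ⟨h1, ?_⟩
  rw [h3]
  set f : ℕ → ℂ := fun n => if n = 0 then 0 else
      a n * VI c (fun s => WL t H s * (k : ℂ) ^ s * (n : ℂ) ^ (-s)) with hf
  have h2' : Summable f := h2.of_norm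
  have hfS : ∑ n ∈ S, a n * kap t H n k = ∑ n ∈ S, f n := by
    refine Finset.sum_congr rfl fun n hn => ?_
    simp only [hf]
    rw [if_neg (hS0 n hn), VI_quot hG c hH0 (hS0 n hn) hk]
  have e0 : ∑' n, f n = ∑ n ∈ S, f n + ∑' n, (if n ∈ S then 0 else f n) := by
    have i1 : Summable (fun n => if n ∈ S then f n else 0) := by
      refine summable_of_ne_finset_zero (s := S) fun n hn => ?_
      rw [if_neg hn]
    have i2 : Summable (fun n => if n ∈ S then 0 else f n) := by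
      have := h2'.sub i1
      refine this.congr fun n => ?_
      by_cases hn : n ∈ S <;> simp [hn]
    have i3 : ∑' n, (if n ∈ S then f n else 0) = ∑ n ∈ S, f n := by
      rw [tsum_eq_sum (s := S) fun n hn => if_neg hn]
      exact Finset.sum_congr rfl fun n hn => if_pos hn
    rw [← i3, ← i1.tsum_add i2]
    refine tsum_congr fun n => ?_
    by_cases hn : n ∈ S <;> simp [hn]
  rw [hfS, e0, add_sub_cancel_left]
  set M := 3 * cL H * (k : ℝ) ^ c * Real.exp (-(L ^ 2 / 8)) with hM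
  have hM0 : 0 ≤ M := by positivity
  refine tsum_of_norm_bounded (hsum.hasSum.mul_right M) ?_
  intro n
  by_cases hnS : n ∈ S
  · rw [if_pos hnS, norm_zero]
    positivity
  · rw [if_neg hnS]
    simp only [hf]
    by_cases hn : n = 0
    · rw [if_pos hn, norm_zero]
      positivity
    · rw [if_neg hn, norm_mul, mul_assoc, VI_quot hG c hH0 hn hk]
      exact mul_le_mul_of_nonneg_left (far_bound hH hc1 hc2 hL hn hk (hSf n hn hnS))
        (norm_nonneg _)

/-- the summand of the near-diagonal sum. -/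
noncomputable def ww (t H : ℝ) (a b : ℕ → ℝ) (n k : ℕ) : ℂ :=
  ((a n * b k * Real.exp (-(H * (Real.log n - Real.log k)) ^ 2 / 4) /
      Real.sqrt (n * k) : ℝ) : ℂ) *
      Complex.exp (-((t * (Real.log n - Real.log k) : ℝ) * I))

lemma ww_eq (t H : ℝ) (a b : ℕ → ℝ) {n k : ℕ} (hn : n ≠ 0) (hk : k ≠ 0) :
    (b k : ℂ) / k * ((a n : ℂ) * kap t H n k) = (cL H : ℂ) * ww t H a b n k := by
  have hn' : (0 : ℝ) < n := by exact_mod_cast Nat.pos_of_ne_zero hn
  have hk' : (0 : ℝ) < k := by exact_mod_cast Nat.pos_of_ne_zero hk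
  unfold kap ww
  rw [Real.log_div hn'.ne' hk'.ne']
  set x := Real.log n - Real.log k with hx
  have h1 : (-(1 / 2 + (t : ℂ) * I) * x - (H : ℂ) ^ 2 * (x : ℂ) ^ 2 / 4) =
      ((-(x / 2) : ℝ) : ℂ) + ((-(H * x) ^ 2 / 4 : ℝ) : ℂ) + (-(((t * x : ℝ) : ℂ) * I)) := by
    push_cast
    ring
  rw [h1, Complex.exp_add, Complex.exp_add, ← Complex.ofReal_exp, ← Complex.ofReal_exp]
  have h2 : Real.exp (-(x / 2)) / k = 1 / Real.sqrt (n * k) := by
    have h3 : -(x / 2) = Real.log k / 2 - Real.log n / 2 := by rw [hx]; ring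
    rw [h3, Real.exp_sub, Real.exp_half, Real.exp_half, Real.exp_log hk', Real.exp_log hn',
      Real.sqrt_mul hn'.le]
    have h4 : Real.sqrt k * Real.sqrt k = k := Real.mul_self_sqrt hk'.le
    have h5 : 0 < Real.sqrt n := Real.sqrt_pos.2 hn'
    have h6 : 0 < Real.sqrt k := Real.sqrt_pos.2 hk'
    rw [div_div, div_eq_div_iff (by positivity) (by positivity)]
    linear_combination Real.sqrt n * h4
  have h7 : ((Real.exp (-(x / 2)) : ℝ) : ℂ) / k = ((1 / Real.sqrt (n * k) : ℝ) : ℂ) := by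
    rw [← h2]; push_cast; rfl
  have h8 : ((a n * b k * Real.exp (-(H * x) ^ 2 / 4) / Real.sqrt (n * k) : ℝ) : ℂ) =
      (a n : ℂ) * b k * (Real.exp (-(H * x) ^ 2 / 4) : ℝ) * ((1 / Real.sqrt (n * k) : ℝ) : ℂ) := by
    rw [show (a n * b k * Real.exp (-(H * x) ^ 2 / 4) / Real.sqrt (n * k) : ℝ) =
      a n * b k * Real.exp (-(H * x) ^ 2 / 4) * (1 / Real.sqrt (n * k)) by ring]
    simp only [Complex.ofReal_mul]
  rw [h8, ← h7]
  ring

lemma ww_diag (t H : ℝ) (a b : ℕ → ℝ) {k : ℕ} : ww t H a b k k = ((a k * b k / k : ℝ) : ℂ) := by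
  unfold ww
  have h : Real.sqrt ((k : ℝ) * k) = k := Real.sqrt_mul_self (Nat.cast_nonneg k)
  simp [h]

/-- The near-diagonal pairs and the diagonal. -/
lemma sum_near {T : ℝ} (hT : 1 ≤ T) (H t : ℝ) (N : ℕ) (a b : ℕ → ℝ) :
    ∑ k ∈ Finset.Icc 1 N, ∑ n ∈ (Finset.Icc 1 N).filter
      (fun n : ℕ => H * |Real.log n - Real.log k| ≤ Real.log T), ww t H a b n k =
    ((∑ k ∈ Finset.Icc 1 N, a k * b k / k : ℝ) : ℂ) + NB N T H a b t := by
  classical
  have e1 : NB N T H a b t = ∑ k ∈ Finset.Icc 1 N, ∑ n ∈ Finset.Icc 1 N,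
      if (n ≠ k ∧ H * |Real.log n - Real.log k| ≤ Real.log T) then ww t H a b n k else 0 := by
    unfold NB prs
    rw [Finset.sum_filter, Finset.sum_product_right]
    rfl
  rw [e1]
  push_cast
  rw [← Finset.sum_add_distrib]
  refine Finset.sum_congr rfl fun k hk => ?_
  rw [Finset.sum_filter]
  have e2 : ((a k : ℂ) * b k / k) = ∑ n ∈ Finset.Icc 1 N, if n = k then ww t H a b n k else 0 := by
    rw [Finset.sum_ite_eq' (Finset.Icc 1 N) k (fun n => ww t H a b n k), if_pos hk, ww_diag]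
    push_cast
    rfl
  rw [e2, ← Finset.sum_add_distrib]
  refine Finset.sum_congr rfl fun n _ => ?_
  have hlog : 0 ≤ Real.log T := Real.log_nonneg hT
  by_cases hnk : n = k
  · subst hnk
    simp [hlog]
  · by_cases hP : H * |Real.log n - Real.log k| ≤ Real.log T <;> simp [hnk, hP]

/-- The main lemma, on any line `1/2 ≤ c < 3/2`. -/
lemma main (hG : GauLStatement) (hS : SwapStatement) {T t H c A : ℝ} (hT : 1 ≤ T) (hH : 2 ≤ H)
    (hHT : H ≤ T) (hH2 : Real.log T ≤ H * Real.log 2)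
    (hc1 : 1 / 2 ≤ c) (hc2 : c < 3 / 2) (X : ℕ) (a b : ℕ → ℝ) (hX : (X : ℝ) ≤ T)
    (hsum : Summable (fun n : ℕ => |a n| * (n : ℝ) ^ (-c)))
    (hA : (∑' n : ℕ, |a n| * (n : ℝ) ^ (-c)) ≤ T ^ A) (hb : ∀ k, |b k| ≤ T ^ A)
    (hb0 : ∀ k, X < k → b k = 0)
    (hE : 3 * T ^ (2 * A + c + 3) * Real.exp (-(Real.log T ^ 2 / 8)) ≤ 1) :
    ‖VI c (fun s => LSeries (fun n => ((a n : ℝ) : ℂ)) s *
        (∑ k ∈ Finset.Icc 1 X, (b k : ℂ) * (k : ℂ) ^ (-(1 - s))) * WL t H s) -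
      (cL H : ℂ) * (((∑ k ∈ Finset.Icc 1 X, a k * b k / k : ℝ) : ℂ) +
        NB (2 * X) T H a b t)‖ ≤ 1 / T := by
  classical
  have hT0 : 0 < T := by linarith
  have hlog : 0 ≤ Real.log T := Real.log_nonneg hT
  have hH0 : 0 < H := by linarith
  have hcL0 : 0 < cL H := by unfold cL; positivity
  have hcLT : cL H ≤ T := by
    unfold cL
    have h1 : 1 ≤ Real.sqrt Real.pi := by
      rw [show (1 : ℝ) = Real.sqrt 1 by simp]
      exact Real.sqrt_le_sqrt (by linarith [Real.pi_gt_three])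
    rw [div_le_iff₀ (by positivity)]
    nlinarith
  set aa : ℕ → ℂ := fun n => ((a n : ℝ) : ℂ) with haa
  have hnorm : ∀ n : ℕ, ‖aa n‖ = |a n| := fun n => by
    rw [haa]; simp [Complex.norm_real]
  have hsum' : Summable (fun n : ℕ => ‖aa n‖ * (n : ℝ) ^ (-c)) := by simpa only [hnorm] using hsum
  set S : ℕ → Finset ℕ := fun k => (Finset.Icc 1 (2 * X)).filter
      (fun n : ℕ => H * |Real.log n - Real.log k| ≤ Real.log T) with hSdef
  have hk : ∀ k ∈ Finset.Icc 1 X, k ≠ 0 ∧ k ≤ X := by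
    intro k hk
    rw [Finset.mem_Icc] at hk
    exact ⟨by omega, hk.2⟩
  have hone := fun k (hk' : k ∈ Finset.Icc 1 X) =>
    one_k (t := t) (L := Real.log T) hG hS hH hc1 hc2 hlog (hk k hk').1 aa hsum' (S k)
      (fun n hn => by
        rw [hSdef, Finset.mem_filter, Finset.mem_Icc] at hn
        omega)
      (fun n hn hnS => by
        rw [hSdef, Finset.mem_filter, Finset.mem_Icc, not_and_or] at hnS
        rcases hnS with h | h
        · have h1 : 2 * X < n := by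
            by_contra h2
            exact h ⟨Nat.pos_of_ne_zero hn, by omega⟩
          have hk1 : 0 < k := Nat.pos_of_ne_zero (hk k hk').1
          have hk1' : (0 : ℝ) < k := by exact_mod_cast hk1
          have h3 : (2 : ℝ) * k ≤ n := by
            have := (hk k hk').2
            exact_mod_cast (by omega : 2 * k ≤ n)
          have h4 : Real.log 2 ≤ Real.log n - Real.log k := by
            rw [← Real.log_div (by linarith) hk1'.ne']
            apply Real.log_le_log (by norm_num)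
            rw [le_div_iff₀ hk1']
            exact h3
          refine hH2.trans ?_
          exact mul_le_mul_of_nonneg_left (h4.trans (le_abs_self _)) hH0.le
        · exact (not_le.1 h).le)
  -- the finite sum
  have e1 : VI c (fun s => LSeries aa s *
      (∑ k ∈ Finset.Icc 1 X, (b k : ℂ) * (k : ℂ) ^ (-(1 - s))) *
      WL t H s) = ∑ k ∈ Finset.Icc 1 X, (b k : ℂ) / k *
        VI c (fun s => LSeries aa s * (WL t H s * (k : ℂ) ^ s)) := by
    unfold VI
    have e2 : (fun y : ℝ => LSeries aa (c + y * I) *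
        (∑ k ∈ Finset.Icc 1 X, (b k : ℂ) * (k : ℂ) ^ (-(1 - ((c : ℂ) + y * I)))) *
        WL t H (c + y * I)) = fun y : ℝ => ∑ k ∈ Finset.Icc 1 X, (b k : ℂ) / k *
          (LSeries aa (c + y * I) * (WL t H (c + y * I) * (k : ℂ) ^ ((c : ℂ) + y * I))) := by
      funext y
      rw [Finset.mul_sum, Finset.sum_mul]
      refine Finset.sum_congr rfl fun k hk' => ?_
      have hk0 : (k : ℂ) ≠ 0 := by exact_mod_cast (hk k hk').1
      have e3 : (k : ℂ) ^ (-(1 - ((c : ℂ) + y * I))) = (k : ℂ) ^ ((c : ℂ) + y * I) / k := by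
        rw [neg_sub, Complex.cpow_sub _ _ hk0, Complex.cpow_one]
      rw [e3]
      field_simp
    rw [e2, integral_finsetSum]
    · rw [Finset.mul_sum]
      refine Finset.sum_congr rfl fun k _ => ?_
      rw [integral_const_mul]
      ring
    · intro k hk'
      exact ((hone k hk').1).const_mul _
  -- the main term
  have e4 : (cL H : ℂ) * (((∑ k ∈ Finset.Icc 1 X, a k * b k / k : ℝ) : ℂ) +
        NB (2 * X) T H a b t) = ∑ k ∈ Finset.Icc 1 X, (b k : ℂ) / k *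
          ∑ n ∈ S k, aa n * kap t H n k := by
    have e5 : ∑ k ∈ Finset.Icc 1 X, a k * b k / (k : ℝ) =
        ∑ k ∈ Finset.Icc 1 (2 * X), a k * b k / (k : ℝ) := by
      refine Finset.sum_subset (Finset.Icc_subset_Icc le_rfl (by omega)) fun k h1 h2 => ?_
      rw [Finset.mem_Icc] at h1 h2
      rw [hb0 k (by omega)]
      simp
    rw [e5, ← sum_near hT H t (2 * X) a b]
    have e6 : ∑ k ∈ Finset.Icc 1 X, (b k : ℂ) / k * ∑ n ∈ S k, aa n * kap t H n k =
        ∑ k ∈ Finset.Icc 1 (2 * X), (b k : ℂ) / k * ∑ n ∈ S k, aa n * kap t H n k := by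
      refine Finset.sum_subset (Finset.Icc_subset_Icc le_rfl (by omega)) fun k h1 h2 => ?_
      rw [Finset.mem_Icc] at h1 h2
      rw [hb0 k (by omega)]
      simp
    rw [e6, Finset.mul_sum]
    refine Finset.sum_congr rfl fun k hk' => ?_
    rw [Finset.mul_sum, Finset.mul_sum]
    refine Finset.sum_congr rfl fun n hn => ?_
    rw [Finset.mem_Icc] at hk'
    rw [Finset.mem_filter, Finset.mem_Icc] at hn
    rw [← ww_eq t H a b (by omega) (by omega)]
  rw [e1, e4, ← Finset.sum_sub_distrib]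
  set Ex := Real.exp (-(Real.log T ^ 2 / 8)) with hEx
  have hEx0 : 0 ≤ Ex := (Real.exp_pos _).le
  have hTA : 0 ≤ T ^ A := Real.rpow_nonneg hT0.le _
  have hAn : (∑' n : ℕ, ‖aa n‖ * (n : ℝ) ^ (-c)) ≤ T ^ A := by simpa only [hnorm] using hA
  have e2 : ∀ k ∈ Finset.Icc 1 X, ‖(b k : ℂ) / k *
      VI c (fun s => LSeries aa s * (WL t H s * (k : ℂ) ^ s)) -
      (b k : ℂ) / k * ∑ n ∈ S k, aa n * kap t H n k‖ ≤ T ^ A * (T ^ A * (3 * T * T ^ c * Ex)) := by
    intro k hk'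
    have hk1 : (1 : ℝ) ≤ k := by exact_mod_cast Nat.pos_of_ne_zero (hk k hk').1
    have hkT : (k : ℝ) ≤ T := by
      have : (k : ℝ) ≤ X := by exact_mod_cast (hk k hk').2
      linarith
    rw [← mul_sub, norm_mul, norm_div, Complex.norm_natCast, Complex.norm_real, Real.norm_eq_abs]
    have e4 : |b k| / k ≤ T ^ A := (div_le_self (abs_nonneg _) hk1).trans (hb k)
    refine mul_le_mul e4 (((hone k hk').2).trans ?_) (norm_nonneg _) hTA
    have e5 : (k : ℝ) ^ c ≤ T ^ c := Real.rpow_le_rpow (by positivity) hkT (by linarith)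
    have e6 : 0 ≤ (k : ℝ) ^ c := by positivity
    have e7 : 3 * cL H * (k : ℝ) ^ c * Ex ≤ 3 * T * T ^ c * Ex := by gcongr
    exact mul_le_mul hAn e7 (by positivity) hTA
  refine (norm_sum_le _ _).trans ((Finset.sum_le_sum e2).trans ?_)
  rw [Finset.sum_const, Nat.card_Icc, nsmul_eq_mul, Nat.add_sub_cancel]
  have hTc : 0 ≤ T ^ c := Real.rpow_nonneg hT0.le _
  have hXX : 0 ≤ T ^ A * (T ^ A * (3 * T * T ^ c * Ex)) := by positivity
  have e8 : T * (T ^ A * (T ^ A * (3 * T * T ^ c * Ex))) * T =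
      3 * T ^ (2 * A + c + 3) * Ex := by
    have e9 : T ^ (2 * A + c + 3) = T ^ A * T ^ A * T ^ c * (T * T * T) := by
      rw [show 2 * A + c + 3 = A + A + c + (1 + 1 + 1) by ring, Real.rpow_add hT0,
        Real.rpow_add hT0, Real.rpow_add hT0, Real.rpow_add hT0, Real.rpow_add hT0, Real.rpow_one]
    rw [e9]
    ring
  rw [le_div_iff₀ hT0]
  calc (X : ℝ) * (T ^ A * (T ^ A * (3 * T * T ^ c * Ex))) * T
      ≤ T * (T ^ A * (T ^ A * (3 * T * T ^ c * Ex))) * T := by gcongr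
    _ = 3 * T ^ (2 * A + c + 3) * Ex := e8
    _ ≤ 1 := hE

/-- The parameters. -/
lemma params (a0 B : ℝ) (ha0 : 0 < a0) : ∃ T0 : ℝ, 1 ≤ T0 ∧ ∀ T t H : ℝ, T0 ≤ T →
    Rng a0 T t H → 1 ≤ T ∧ 2 ≤ H ∧ H ≤ T ∧ Real.log T ≤ H * Real.log 2 ∧
      Real.log T < H * Real.log 2 ∧
      3 * T ^ B * Real.exp (-(Real.log T ^ 2 / 8)) ≤ 1 := by
  have hl2 : 0 < Real.log 2 := Real.log_pos (by norm_num)
  have h1 : ∀ᶠ T : ℝ in atTop, Real.log T < T ^ a0 * Real.log 2 := by
    have h := (isLittleO_log_rpow_atTop ha0).bound (show (0 : ℝ) < Real.log 2 / 2 by positivity)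
    filter_upwards [h, eventually_ge_atTop (1 : ℝ)] with T h2 h3
    have h4 : 0 < T ^ a0 := Real.rpow_pos_of_pos (by linarith) _
    rw [Real.norm_eq_abs, Real.norm_eq_abs, abs_of_pos h4] at h2
    have h5 := le_abs_self (Real.log T)
    nlinarith
  have h2 : ∀ᶠ T : ℝ in atTop, 8 * (|B| + 2) ≤ Real.log T :=
    Real.tendsto_log_atTop.eventually (eventually_ge_atTop _)
  have h3 : ∀ᶠ T : ℝ in atTop, (2 : ℝ) ≤ T ^ a0 :=
    (tendsto_rpow_atTop ha0).eventually (eventually_ge_atTop 2)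
  obtain ⟨T1, hT1⟩ := Filter.eventually_atTop.1 (h1.and (h2.and h3))
  refine ⟨max T1 3, le_trans (by norm_num) (le_max_right _ _), fun T t H hT hR => ?_⟩
  obtain ⟨p1, p2, p3⟩ := hT1 T ((le_max_left _ _).trans hT)
  have hT3 : 3 ≤ T := (le_max_right _ _).trans hT
  obtain ⟨r1, r2, r3, r4⟩ := hR
  have hT0 : 0 < T := by linarith
  have q : Real.log T < H * Real.log 2 := p1.trans_le (mul_le_mul_of_nonneg_right r3 hl2.le)
  refine ⟨by linarith, p3.trans r3, ?_, q.le, q, ?_⟩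
  · refine r4.trans ?_
    calc T ^ (1 - a0) ≤ T ^ (1 : ℝ) :=
          Real.rpow_le_rpow_of_exponent_le (by linarith) (by linarith)
      _ = T := Real.rpow_one T
  · have hlog : 0 < Real.log T := Real.log_pos (by linarith)
    have e1 : T ^ B * Real.exp (-(Real.log T ^ 2 / 8)) ≤ Real.exp (-(2 * Real.log T)) := by
      rw [Real.rpow_def_of_pos hT0, ← Real.exp_add, Real.exp_le_exp]
      have := le_abs_self B
      nlinarith [abs_nonneg B]
    have e2 : Real.exp (-(2 * Real.log T)) = 1 / (T * T) := by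
      rw [Real.exp_neg, two_mul, Real.exp_add, Real.exp_log hT0, one_div]
    rw [e2] at e1
    have e3 : 3 * (1 / (T * T)) ≤ 1 := by
      rw [mul_one_div, div_le_one (by positivity)]
      nlinarith
    linarith

/-- EDGL -/
theorem edgL (hG : GauLStatement) (hS : SwapStatement) : EdgLStatement := by
  intro A c a0 hc1 hc2 ha0 ha1
  obtain ⟨T0, hT01, hT0⟩ := params a0 (2 * A + c + 3) ha0
  refine ⟨T0, fun T t H hT hR X α β hX hsum hA hb hb0 => ?_⟩
  obtain ⟨q1, q2, q3, q4, -, q5⟩ := hT0 T t H hT hR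
  exact main hG hS q1 q2 q3 q4 (by linarith) hc2 X (fun n => α n) β hX hsum hA hb hb0 q5

/-- EDG0L -/
theorem edg0L (hG : GauLStatement) (hS : SwapStatement) : Edg0LStatement := by
  intro A c a0 hc1 hc2 ha0 ha1
  obtain ⟨T0, hT01, hT0⟩ := params a0 (2 * |A| + c + 3) ha0
  refine ⟨T0, fun T t H hT hR α hα hsum hA => ?_⟩
  obtain ⟨q1, q2, q3, q4, q6, q5⟩ := hT0 T t H hT hR
  have h1 := main (A := |A|) (t := t) hG hS q1 q2 q3 q4 (by linarith) hc2 1 (fun n => α n)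
    (fun k => if k = 1 then 1 else 0) (by simpa using q1) hsum
    (hA.trans (Real.rpow_le_rpow_of_exponent_le q1 (le_abs_self A)))
    (fun k => by
      have h2 : (1 : ℝ) ≤ T ^ |A| := Real.one_le_rpow q1 (abs_nonneg A)
      by_cases hk : k = 1
      · simp only [hk, if_true, abs_one]; exact h2
      · simp only [hk, if_false, abs_zero]; linarith)
    (fun k hk => by rw [if_neg (by omega)]) q5
  have h3 : NB (2 * 1) T H (fun n => α n) (fun k => if k = 1 then 1 else 0) t = 0 := by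
    unfold NB
    refine Finset.sum_eq_zero fun p hp => ?_
    exfalso
    unfold prs at hp
    simp only [mul_one, Finset.mem_filter, Finset.mem_product, Finset.mem_Icc] at hp
    obtain ⟨⟨⟨a1, a2⟩, b1, b2⟩, h4, h5⟩ := hp
    have h6 : |Real.log (p.1 : ℝ) - Real.log (p.2 : ℝ)| = Real.log 2 := by
      have hl2 : 0 < Real.log 2 := Real.log_pos (by norm_num)
      have : (p.1 = 1 ∧ p.2 = 2) ∨ (p.1 = 2 ∧ p.2 = 1) := by omega
      rcases this with ⟨u, v⟩ | ⟨u, v⟩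
      · rw [u, v]
        simp [abs_of_pos hl2]
      · rw [u, v]
        simp [abs_of_pos hl2]
    rw [h6] at h5
    linarith
  rw [h3] at h1
  have h4 : (∑ k ∈ Finset.Icc 1 1, (fun n => α n) k * (fun k => if k = 1 then (1 : ℝ) else 0) k /
      (k : ℝ)) = 0 := by
    simp [hα]
  rw [h4] at h1
  have h5 : (fun s : ℂ => LSeries (fun n => ((α n : ℝ) : ℂ)) s *
        (∑ k ∈ Finset.Icc 1 1, (((fun k : ℕ => if k = 1 then (1 : ℝ) else 0) k : ℝ) : ℂ) *
          (k : ℂ) ^ (-(1 - s))) * WL t H s) = fun s => LS α s * WL t H s := by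
    funext s
    simp [LS]
  simp only [Complex.ofReal_zero, add_zero, mul_zero, sub_zero] at h1
  rw [← h5]
  exact h1

/-- MVL -/
theorem mvL (hG : GauLStatement) (hS : SwapStatement) : MvLStatement := by
  intro A a0 ha0 ha1
  obtain ⟨T0, hT01, hT0⟩ := params a0 (2 * (A + 1) + 1 / 2 + 3) ha0
  refine ⟨T0, fun T t H hT hR X d hX hd hd0 => ?_⟩
  obtain ⟨q1, q2, q3, q4, -, q5⟩ := hT0 T t H hT hR
  have hT0' : 0 < T := by linarith
  have hz : ∀ n ∉ Finset.Icc 1 X, |d n| * (n : ℝ) ^ (-(1 / 2 : ℝ)) = 0 := by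
    intro n hn
    rcases Nat.eq_zero_or_pos n with h0 | h0
    · rw [h0]; simp
    · rw [hd0 n (by
        by_contra h1
        exact hn (Finset.mem_Icc.2 ⟨h0, by omega⟩))]
      simp
  have hTA : 0 ≤ T ^ A := Real.rpow_nonneg hT0'.le _
  have hAN : (∑' n : ℕ, |d n| * (n : ℝ) ^ (-(1 / 2 : ℝ))) ≤ T ^ (A + 1) := by
    rw [tsum_eq_sum (s := Finset.Icc 1 X) hz]
    have h1 : ∀ n ∈ Finset.Icc 1 X, |d n| * (n : ℝ) ^ (-(1 / 2 : ℝ)) ≤ T ^ A := by
      intro n hn
      rw [Finset.mem_Icc] at hn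
      have hn1 : (1 : ℝ) ≤ n := by exact_mod_cast hn.1
      have h2 : (n : ℝ) ^ (-(1 / 2 : ℝ)) ≤ 1 :=
        Real.rpow_le_one_of_one_le_of_nonpos hn1 (by norm_num)
      have h3 : 0 ≤ (n : ℝ) ^ (-(1 / 2 : ℝ)) := by positivity
      calc |d n| * (n : ℝ) ^ (-(1 / 2 : ℝ)) ≤ T ^ A * 1 :=
            mul_le_mul (hd n) h2 h3 hTA
        _ = T ^ A := mul_one _
    refine (Finset.sum_le_sum h1).trans ?_
    rw [Finset.sum_const, Nat.card_Icc, nsmul_eq_mul, Nat.add_sub_cancel, Real.rpow_add hT0',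
      Real.rpow_one, mul_comm]
    exact mul_le_mul_of_nonneg_left hX hTA
  have h1 := main (A := A + 1) (t := t) (c := 1 / 2) hG hS q1 q2 q3 q4 le_rfl (by norm_num) X
    (fun n => d n) (fun n => d n) hX
    (summable_of_ne_finset_zero (s := Finset.Icc 1 X) hz) hAN
    (fun k => (hd k).trans (Real.rpow_le_rpow_of_exponent_le q1 (by linarith))) hd0 q5
  have h2 : VI (1 / 2) (fun s => LSeries (fun n => ((d n : ℝ) : ℂ)) s *
        (∑ k ∈ Finset.Icc 1 X, (d k : ℂ) * (k : ℂ) ^ (-(1 - s))) * WL t H s) =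
      (((1 / (2 * Real.pi)) * ∫ y : ℝ, ‖PD d X (1 / 2 + y * I)‖ ^ 2 * wl t H y : ℝ) : ℂ) := by
    unfold VI
    rw [Complex.ofReal_mul, ← integral_complex_ofReal]
    congr 1
    · push_cast; rfl
    · congr 1
      funext y
      have h3 : LSeries (fun n => ((d n : ℝ) : ℂ)) (((1 / 2 : ℝ) : ℂ) + y * I) =
          PD d X (1 / 2 + y * I) := by
        have h4 : ((1 / 2 : ℝ) : ℂ) = 1 / 2 := by push_cast; rfl
        rw [h4]
        exact P5.H59.LS_fin d X hd0 _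
      have h5 : ∑ k ∈ Finset.Icc 1 X, (d k : ℂ) * (k : ℂ) ^ (-(1 - (((1 / 2 : ℝ) : ℂ) + y * I))) =
          (starRingEnd ℂ) (PD d X (1 / 2 + y * I)) := by
        rw [← PD_conj]
        unfold PD
        refine Finset.sum_congr rfl fun k _ => ?_
        congr 3
        simp only [map_add, map_mul, Complex.conj_ofReal, Complex.conj_I, map_div₀, map_one,
          map_ofNat]
        push_cast
        ring
      have h6 : WL t H (((1 / 2 : ℝ) : ℂ) + y * I) = (wl t H y : ℂ) := by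
        rw [← hG.2.2.1 t H y]
        congr 2
        push_cast
        rfl
      beta_reduce
      rw [h3, h5, h6, Complex.mul_conj, Complex.normSq_eq_norm_sq]
      push_cast
      rfl
  rw [h2] at h1
  have hcL : 0 < cL H := by unfold cL; positivity
  set Q : ℝ := (1 / (2 * Real.pi)) * ∫ y : ℝ, ‖PD d X (1 / 2 + y * I)‖ ^ 2 * wl t H y with hQ
  have h3 := (Complex.abs_re_le_norm _).trans h1
  rw [Complex.sub_re, Complex.ofReal_re, Complex.re_ofReal_mul, Complex.add_re,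
    Complex.ofReal_re] at h3
  have h4 := Complex.re_le_norm (NB (2 * X) T H (fun n => d n) (fun n => d n) t)
  have h5 := le_abs_self (Q - cL H * ((∑ k ∈ Finset.Icc 1 X, d k * d k / k) +
    (NB (2 * X) T H (fun n => d n) (fun n => d n) t).re))
  have h6 : ∑ k ∈ Finset.Icc 1 X, d k * d k / (k : ℝ) = ∑ n ∈ Finset.Icc 1 X, d n ^ 2 / (n : ℝ) :=
    Finset.sum_congr rfl fun k _ => by ring
  have h7 : cL H * ((∑ k ∈ Finset.Icc 1 X, d k * d k / k) +
    (NB (2 * X) T H (fun n => d n) (fun n => d n) t).re) ≤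
    cL H * (∑ n ∈ Finset.Icc 1 X, d n ^ 2 / (n : ℝ) + ‖NB (2 * X) T H d d t‖) := by
    apply mul_le_mul_of_nonneg_left _ hcL.le
    rw [h6]
    exact add_le_add le_rfl h4
  linarith

end Pool.Agent.Lib.MP_6bc78b_nt.LW.H81
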