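import Pool.Agent.Lib.MP_6bc78b_nt.LW.Iface

/-! Project LW, module W3: the mean square of a Dirichlet polynomial over the zeros in a window. -/

set_option autoImplicit false

open Complex Filter Topology MeasureTheory ArithmeticFunction

namespace Pool.Agent.Lib.MP_6bc78b_nt.LW.H81

open Pool.Agent.Lib.MP_6bc78b_nt
open Pool.Agent.Lib.MP_6bc78b_nt.MS Pool.Agent.Lib.MP_6bc78b_nt.MS.P1
open Pool.Agent.Lib.MP_6bc78b_nt.MS.P4 Pool.Agent.Lib.MP_6bc78b_nt.MS.P5
open Pool.Agent.Lib.MP_6bc78b_nt.MS.P5.HM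
open Pool.Agent.Lib.MP_6bc78b_nt.LW

/-- The part with `ω`, on the critical line. -/
lemma om_line (hchi : ChiStatement) (hG : GauLStatement) (L t H : ℝ) (hL : 0 ≤ L) (ht : 1 < t)
    (hC : ∀ y : ℝ, t / 2 ≤ y → y ≤ 2 * t → (om (1 / 2 + y * I)).re ≤ L) (P : ℂ → ℂ) (F : ℂ → ℂ)
    (hF : ∀ y : ℝ, F (1 / 2 + y * I) = ((‖P (1 / 2 + y * I)‖ ^ 2 : ℝ) : ℂ))
    (hFint : Integrable (fun y : ℝ => F (((1 / 2 : ℝ) : ℂ) + y * I) *
      WL t H (((1 / 2 : ℝ) : ℂ) + y * I))) (hFc : Continuous F) (Q : ℝ)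
    (hQ : (1 / (2 * Real.pi)) * ∫ y : ℝ, ‖P (1 / 2 + y * I)‖ ^ 2 * wl t H y ≤ Q) :
    (VF (1 / 2) t (fun s => om s * F s * WL t H s)).re ≤ L * Q := by
  have hhalf : (((1 / 2 : ℝ)) : ℂ) = 1 / 2 := H23.half_cast
  unfold VF
  rw [H59.re_const]
  have hcont : ContinuousOn (fun y : ℝ => om (((1 / 2 : ℝ) : ℂ) + y * I) *
      F (((1 / 2 : ℝ) : ℂ) + y * I) * WL t H (((1 / 2 : ℝ) : ℂ) + y * I))
      (Set.uIcc (t / 2) (2 * t)) := by
    intro y hy
    rw [Set.uIcc_of_le (by linarith)] at hy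
    have h1 : DifferentiableAt ℂ om (((1 / 2 : ℝ) : ℂ) + y * I) :=
      H51.om_diff hchi _ (by simp) (by
        simp only [Complex.add_im, Complex.ofReal_im, Complex.mul_im, Complex.ofReal_re,
          Complex.I_im, Complex.I_re, mul_one, mul_zero, add_zero, zero_add]
        have := hy.1
        intro h
        linarith)
    have hline : Continuous (fun y : ℝ => (((1 / 2 : ℝ) : ℂ) + y * I : ℂ)) := by fun_prop
    have h2 : ContinuousAt (fun y : ℝ => om (((1 / 2 : ℝ) : ℂ) + y * I)) y :=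
      ContinuousAt.comp (f := fun y : ℝ => (((1 / 2 : ℝ) : ℂ) + y * I : ℂ)) (g := om)
        h1.continuousAt hline.continuousAt
    have hW : Continuous (WL t H) := by unfold WL; fun_prop
    exact ((h2.mul (hFc.comp hline).continuousAt).mul
      (hW.comp hline).continuousAt).continuousWithinAt
  have hii := hcont.intervalIntegrable (μ := volume)
  have hre : (∫ y in (t / 2)..(2 * t), om (((1 / 2 : ℝ) : ℂ) + y * I) *
      F (((1 / 2 : ℝ) : ℂ) + y * I) * WL t H (((1 / 2 : ℝ) : ℂ) + y * I)).re =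
      ∫ y in (t / 2)..(2 * t), (om (((1 / 2 : ℝ) : ℂ) + y * I) *
      F (((1 / 2 : ℝ) : ℂ) + y * I) * WL t H (((1 / 2 : ℝ) : ℂ) + y * I)).re :=
    (Complex.reCLM.intervalIntegral_comp_comm hii).symm
  rw [hre]
  have hFW : ∀ y : ℝ, F (((1 / 2 : ℝ) : ℂ) + y * I) * WL t H (((1 / 2 : ℝ) : ℂ) + y * I) =
      ((‖P (1 / 2 + y * I)‖ ^ 2 * wl t H y : ℝ) : ℂ) := by
    intro y
    rw [hhalf, hG.2.2.1, hF]
    push_cast
    rfl
  have hgint : Integrable (fun y : ℝ => ‖P (1 / 2 + y * I)‖ ^ 2 * wl t H y) := by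
    have h1 := hFint.re
    refine h1.congr (Filter.Eventually.of_forall (fun y => ?_))
    show (F (((1 / 2 : ℝ) : ℂ) + y * I) * WL t H (((1 / 2 : ℝ) : ℂ) + y * I)).re = _
    rw [hFW y, Complex.ofReal_re]
  have hg0 : ∀ y : ℝ, 0 ≤ ‖P (1 / 2 + y * I)‖ ^ 2 * wl t H y := by
    intro y
    have : 0 ≤ wl t H y := (Real.exp_pos _).le
    positivity
  have hle : ∫ y in (t / 2)..(2 * t), (om (((1 / 2 : ℝ) : ℂ) + y * I) *
      F (((1 / 2 : ℝ) : ℂ) + y * I) * WL t H (((1 / 2 : ℝ) : ℂ) + y * I)).re ≤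
      ∫ y in (t / 2)..(2 * t), L * (‖P (1 / 2 + y * I)‖ ^ 2 * wl t H y) := by
    apply intervalIntegral.integral_mono_on (by linarith)
    · exact (Complex.continuous_re.comp_continuousOn hcont).intervalIntegrable
    · exact (hgint.const_mul _).intervalIntegrable
    · intro y hy
      rw [mul_assoc, hFW y, Complex.re_mul_ofReal, hhalf]
      exact mul_le_mul_of_nonneg_right (hC y hy.1 hy.2) (hg0 y)
  have hle2 : ∫ y in (t / 2)..(2 * t), L * (‖P (1 / 2 + y * I)‖ ^ 2 * wl t H y) ≤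
      L * ∫ y : ℝ, ‖P (1 / 2 + y * I)‖ ^ 2 * wl t H y := by
    rw [intervalIntegral.integral_const_mul]
    apply mul_le_mul_of_nonneg_left _ hL
    rw [intervalIntegral.integral_of_le (by linarith)]
    exact setIntegral_le_integral hgint (Filter.Eventually.of_forall hg0)
  have hpi : 0 < 1 / (2 * Real.pi) := by positivity
  calc 1 / (2 * Real.pi) * ∫ y in (t / 2)..(2 * t), (om (((1 / 2 : ℝ) : ℂ) + y * I) *
      F (((1 / 2 : ℝ) : ℂ) + y * I) * WL t H (((1 / 2 : ℝ) : ℂ) + y * I)).re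
      ≤ 1 / (2 * Real.pi) * (L * ∫ y : ℝ, ‖P (1 / 2 + y * I)‖ ^ 2 * wl t H y) :=
        mul_le_mul_of_nonneg_left (hle.trans hle2) hpi.le
    _ = L * (1 / (2 * Real.pi) * ∫ y : ℝ, ‖P (1 / 2 + y * I)‖ ^ 2 * wl t H y) := by ring
    _ ≤ L * Q := mul_le_mul_of_nonneg_left hQ hL

/-- The real part of a sum over the zeros. -/
lemma ZL_re {t : ℝ} (hG : GauLStatement) (H : ℝ) (hf : (zset t).Finite) (F : ℂ → ℂ) :
    (ZL t H F).re = ∑ γ ∈ hf.toFinset, (mz γ : ℝ) * wl t H γ * (F (1 / 2 + γ * I)).re := by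
  unfold ZL
  rw [finsum_mem_eq_finite_toFinset_sum _ hf, Complex.re_sum]
  refine Finset.sum_congr rfl fun γ _ => ?_
  rw [hG.2.2.1]
  have h : (mz γ : ℂ) * ((wl t H γ : ℝ) : ℂ) = (((mz γ : ℝ) * wl t H γ : ℝ) : ℂ) := by
    push_cast; ring
  rw [h, Complex.re_ofReal_mul]

/-- The part with `ζ'/ζ`. -/
lemma zeta_part (hLS : LSerStatement) (c t T H A : ℝ) (X : ℕ) (d : ArithmeticFunction ℝ)
    (hc1 : 1 < c) (hcL : 0 < cL H)
    (hET : ‖VI c (fun s => LS (La * d) s *
        (∑ k ∈ Finset.Icc 1 X, (d k : ℂ) * (k : ℂ) ^ (-(1 - s))) * WL t H s) -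
      (cL H : ℂ) * (((∑ k ∈ Finset.Icc 1 X, (La * d) k * d k / k : ℝ) : ℂ) +
        NB (2 * X) T H (⇑(La * d)) d t)‖ ≤ 1 / T)
    (hd0 : ∀ n, X < n → d n = 0) (hA3 : ∀ n, 0 ≤ d n ∧ d n ≤ A) :
    (VI c (fun s => logDeriv riemannZeta s * (PD d X s * PD d X (1 - s)) * WL t H s)).re ≤
      1 / T + cL H * ‖NB (2 * X) T H (⇑(La * d)) d t‖ := by
  have hre : ∀ y : ℝ, (c + y * I : ℂ).re = c := by intro y; simp
  obtain ⟨hALa, -, -⟩ := hLS.2.2.2.1 c hc1
  have hAd : ASum c d := H59.ASum_fin d X hd0 c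
  obtain ⟨-, -, h6⟩ := hLS.2.2.2.2.1 c La d hALa hAd
  have h1 : VI c (fun s => LS (La * d) s *
      (∑ j ∈ Finset.Icc 1 X, ((d j : ℝ) : ℂ) * (j : ℂ) ^ (-(1 - s))) * WL t H s) =
      - VI c (fun s => logDeriv riemannZeta s * (PD d X s * PD d X (1 - s)) * WL t H s) := by
    rw [← ZBB.VI_neg]
    apply ZBB.VI_congr
    intro y
    have h2 : LS (La * d) (c + y * I) =
        (-logDeriv riemannZeta (c + y * I)) * PD d X (c + y * I) := by
      have h3 := h6 (c + y * I) (hre y)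
      rw [hLS.1 _ (by rw [hre]; exact hc1), H59.LS_fin d X hd0] at h3
      exact h3
    rw [h2]
    show _ * PD d X (1 - (c + y * I)) * _ = _
    ring
  rw [h1] at hET
  set V := VI c (fun s => logDeriv riemannZeta s * (PD d X s * PD d X (1 - s)) * WL t H s) with hV
  set N := NB (2 * X) T H (⇑(La * d)) d t with hN
  have h0 : 0 ≤ ∑ j ∈ Finset.Icc 1 X, (La * d) j * d j / (j : ℝ) := by
    apply Finset.sum_nonneg
    intro j _
    apply div_nonneg _ (Nat.cast_nonneg _)
    apply mul_nonneg _ (hA3 j).1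
    rw [ArithmeticFunction.mul_apply]
    apply Finset.sum_nonneg
    intro p _
    exact mul_nonneg ArithmeticFunction.vonMangoldt_nonneg (hA3 _).1
  have h3 := (Complex.abs_re_le_norm _).trans hET
  rw [Complex.sub_re, Complex.neg_re, Complex.re_ofReal_mul, Complex.add_re,
    Complex.ofReal_re] at h3
  have h4 := (abs_le.1 h3).1
  have h5 := (abs_le.1 (Complex.abs_re_le_norm N)).1
  have h6 : 0 ≤ cL H * ∑ j ∈ Finset.Icc 1 X, (La * d) j * d j / (j : ℝ) :=
    mul_nonneg hcL.le h0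
  have h7 : cL H * (-‖N‖) ≤ cL H * N.re := mul_le_mul_of_nonneg_left h5 hcL.le
  rw [mul_add] at h4
  linarith

/-- ZDL -/
theorem zdL (hZ : ZsfLStatement) (hTl : TailLStatement) (hMov : MovLStatement)
    (hE : EdgLStatement) (hM : MvLStatement) (hG : GauLStatement) (hcho : OmAsympStatement)
    (hLS : LSerStatement) (hchi : ChiStatement) (hzf : ZfacStatement) : ZdLStatement := by
  classical
  intro a0 ha0 ha1
  obtain ⟨c, hc1, hc2⟩ : ∃ c : ℝ, 1 < c ∧ c < 3 / 2 := ⟨5 / 4, by norm_num, by norm_num⟩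
  set K : ℝ := max (AN c La) 1 with hK
  have hK1 : 1 ≤ K := le_max_right _ _
  have hKLa : AN c La ≤ K := le_max_left _ _
  set A : ℝ := 8 with hA
  obtain ⟨C, hC0, hC⟩ := hcho
  obtain ⟨T1, hT1⟩ := hZ A c a0 hc1 hc2 ha0 ha1
  obtain ⟨T2, hT2⟩ := hTl A c a0 (by linarith) (by linarith) ha0 ha1
  obtain ⟨T3, hT3⟩ := hTl A (1 / 2) a0 (by norm_num) (by norm_num) ha0 ha1
  obtain ⟨T4, hT4⟩ := hE A c a0 hc1 hc2 ha0 ha1
  obtain ⟨T5, hT5⟩ := hMov A c a0 hc1 hc2 ha0 ha1
  obtain ⟨T6, hT6⟩ := hM A a0 ha0 ha1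
  refine ⟨max (max (max T1 T2) (max T3 T4)) (max (max T5 T6) (max 60 (max (4 * C) K))),
    fun T t H hT hR X d hX hd hd0 => ?_⟩
  have hTT1 : T1 ≤ T := ((le_max_left _ _).trans ((le_max_left _ _).trans (le_max_left _ _))).trans hT
  have hTT2 : T2 ≤ T := ((le_max_right _ _).trans ((le_max_left _ _).trans (le_max_left _ _))).trans hT
  have hTT3 : T3 ≤ T := ((le_max_left _ _).trans ((le_max_right _ _).trans (le_max_left _ _))).trans hT
  have hTT4 : T4 ≤ T := ((le_max_right _ _).trans ((le_max_right _ _).trans (le_max_left _ _))).trans hT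
  have hTT5 : T5 ≤ T := ((le_max_left _ _).trans ((le_max_left _ _).trans (le_max_right _ _))).trans hT
  have hTT6 : T6 ≤ T := ((le_max_right _ _).trans ((le_max_left _ _).trans (le_max_right _ _))).trans hT
  have hT60 : 60 ≤ T := ((le_max_left _ _).trans ((le_max_right _ _).trans (le_max_right _ _))).trans hT
  have hTC : 4 * C ≤ T := ((le_max_left _ _).trans ((le_max_right _ _).trans
    ((le_max_right _ _).trans (le_max_right _ _)))).trans hT
  have hTK : K ≤ T := ((le_max_right _ _).trans ((le_max_right _ _).trans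
    ((le_max_right _ _).trans (le_max_right _ _)))).trans hT
  have hT0 : 0 < T := by linarith
  have hT1' : 1 < T := by linarith
  obtain ⟨r1, r2, r3, r4⟩ := hR
  have hR : Rng a0 T t H := ⟨r1, r2, r3, r4⟩
  have ht30 : 30 ≤ t := by linarith
  have hH0 : 0 < H := lt_of_lt_of_le (Real.rpow_pos_of_pos hT0 _) r3
  have hlog : 0 < Real.log T := Real.log_pos hT1'
  have hcL : 0 < cL H := by unfold cL; positivity
  have hTinv : 1 / T ≤ 1 := by rw [div_le_one hT0]; linarith
  have hpow : ∀ a b : ℝ, a ≤ b → T ^ a ≤ T ^ b :=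
    fun a b h => Real.rpow_le_rpow_of_exponent_le hT1'.le h
  obtain ⟨hALa, -, -⟩ := hLS.2.2.2.1 c hc1
  have hAd : ASum c d := H59.ASum_fin d X hd0 c
  obtain ⟨hA1, hA2', -⟩ := hLS.2.2.2.2.1 c La d hALa hAd
  have hANd := AN_d_le c T d X hc1 hT1'.le hX hd hd0
  have hANd0 : 0 ≤ AN c d := tsum_nonneg (fun n => by positivity)
  have hA2 : AN c (La * d) ≤ T ^ A := by
    refine hA2'.trans ?_
    calc AN c La * AN c d ≤ T * (T * T) := by
          gcongr
          exact hKLa.trans hTK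
      _ = T ^ (3 : ℝ) := by
          rw [show (3 : ℝ) = ((3 : ℕ) : ℝ) by norm_num, Real.rpow_natCast]
          ring
      _ ≤ T ^ A := hpow _ _ (by rw [hA]; norm_num)
  have hTA1 : T ≤ T ^ A := by
    have := hpow 1 A (by rw [hA]; norm_num)
    rwa [Real.rpow_one] at this
  have hA3 : ∀ n, 0 ≤ d n ∧ d n ≤ T ^ A := fun n => ⟨(hd n).1, (hd n).2.trans hTA1⟩
  have hA4 : ∀ n, |d n| ≤ T ^ A := fun n => by rw [abs_of_nonneg (hA3 n).1]; exact (hA3 n).2
  set F : ℂ → ℂ := fun s => PD d X s * PD d X (1 - s) with hF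
  have hBd : Differentiable ℂ (PD d X) := PD_diff d X
  have hFd : Differentiable ℂ F := by
    apply hBd.mul
    exact (hBd.comp ((differentiable_const _).sub differentiable_id))
  have hFconj : ∀ s : ℂ, (starRingEnd ℂ) (F (1 - (starRingEnd ℂ) s)) = F s := by
    intro s
    simp only [hF]
    rw [map_mul, ← PD_conj, ← PD_conj, map_sub, map_one, Complex.conj_conj,
      map_sub, map_one, map_sub, map_one, Complex.conj_conj, mul_comm]
    congr 2
    ring
  have hFhalf : ∀ y : ℝ, F (1 / 2 + y * I) = ((‖PD d X (1 / 2 + y * I)‖ ^ 2 : ℝ) : ℂ) := by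
    intro y
    simp only [hF]
    have h1 : PD d X (1 - (1 / 2 + y * I)) = (starRingEnd ℂ) (PD d X (1 / 2 + y * I)) := by
      rw [← PD_conj]
      congr 1
      simp only [map_add, map_mul, Complex.conj_ofReal, Complex.conj_I, map_div₀, map_one,
        map_ofNat]
      ring
    rw [h1, Complex.mul_conj, Complex.normSq_eq_norm_sq]
  have hfin : (zset t).Finite := hzf.2.2.2.2.2.2 t
  have hZS : ∑ᶠ γ ∈ zset t, (mz γ : ℝ) * wl t H γ * ‖PD d X (1 / 2 + γ * I)‖ ^ 2 =
      (ZL t H F).re := by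
    rw [ZL_re hG H hfin, finsum_mem_eq_finite_toFinset_sum _ hfin]
    refine Finset.sum_congr rfl fun γ _ => ?_
    rw [hFhalf, Complex.ofReal_re]
  rw [hZS]
  have hFb : ∀ s : ℂ, -1 ≤ s.re → s.re ≤ 2 → ‖F s‖ ≤ T ^ (6 : ℝ) := by
    intro s hs1 hs2
    simp only [hF]
    rw [norm_mul]
    have h1 := PD_norm d X T hT1'.le hX hd s hs1
    have h2 := PD_norm d X T hT1'.le hX hd (1 - s) (by
      rw [Complex.sub_re, Complex.one_re]; linarith)
    have h6 : T ^ (6 : ℝ) = T ^ (3 : ℝ) * T ^ (3 : ℝ) := by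
      rw [← Real.rpow_add hT0]; norm_num
    rw [h6]
    gcongr
  have hz := hT1 T t H hTT1 hR F hFd.differentiableOn (fun s hs => (hFb s (by linarith [hs.1.1])
    (by linarith [hs.1.2])).trans (hpow _ _ (by rw [hA]; norm_num)))
  simp_rw [hFconj] at hz
  have hmv := hT5 T t H hTT5 hR F hFd.differentiableOn (fun s hs => (hFb s (by linarith [hs.1.1])
    (by linarith [hs.1.2])).trans (hpow _ _ (by rw [hA]; norm_num)))
  have hline : Continuous (fun y : ℝ => (c + y * I : ℂ)) := by fun_prop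
  have hre : ∀ y : ℝ, (c + y * I : ℂ).re = c := by intro y; simp
  have hWc : Continuous (WL t H) := by unfold WL; fun_prop
  have hzeta : ∀ y : ℝ, ‖logDeriv riemannZeta (c + y * I)‖ ≤ T := by
    intro y
    have h1 := ZBB.norm_LS_le La c hALa (c + y * I) (hre y)
    rw [hLS.1 _ (by rw [hre]; exact hc1), norm_neg] at h1
    exact h1.trans (hKLa.trans hTK)
  have h1t : ∀ y : ℝ, (1 : ℝ) ≤ (1 + |y|) ^ A := by
    intro y
    exact Real.one_le_rpow (by linarith [abs_nonneg y]) (by rw [hA]; norm_num)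
  have hTA0 : 0 ≤ T ^ A := by positivity
  obtain ⟨i1, t1⟩ := hT2 T t H hTT2 hR (fun s => logDeriv riemannZeta s * F s) (by
    exact ((ZBB.meas_zeta c hc1).mul (hFd.continuous.comp hline).measurable).aestronglyMeasurable)
    (fun y => by
      rw [norm_mul]
      have h1 : ‖logDeriv riemannZeta (c + y * I)‖ * ‖F (c + y * I)‖ ≤ T ^ A := by
        calc ‖logDeriv riemannZeta (c + y * I)‖ * ‖F (c + y * I)‖ ≤ T * T ^ (6 : ℝ) := by
              gcongr
              · exact hzeta y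
              · exact hFb _ (by rw [hre]; linarith) (by rw [hre]; linarith)
          _ = T ^ (1 + 6 : ℝ) := by rw [Real.rpow_add hT0, Real.rpow_one]
          _ ≤ T ^ A := hpow _ _ (by rw [hA]; norm_num)
      exact h1.trans (le_mul_of_one_le_right hTA0 (h1t y)))
  obtain ⟨i2, -⟩ := hT3 T t H hTT3 hR F (by
    have hl : Continuous (fun y : ℝ => (((1 / 2 : ℝ) : ℂ) + y * I : ℂ)) := by fun_prop
    exact (hFd.continuous.comp hl).aestronglyMeasurable) (fun y => by
      have h1 : ‖F (((1 / 2 : ℝ) : ℂ) + y * I)‖ ≤ T ^ A :=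
        (hFb _ (by simp; norm_num) (by simp; norm_num)).trans (hpow _ _ (by rw [hA]; norm_num))
      exact h1.trans (le_mul_of_one_le_right hTA0 (h1t y)))
  have hET := hT4 T t H hTT4 hR X (La * d) (fun k => d k) hX hA1 hA2 hA4 hd0
  have hzp := zeta_part hLS c t T H (T ^ A) X d hc1 hcL hET hd0 hA3
  set N2 := ‖NB (2 * X) T H (⇑(La * d)) d t‖ with hN2
  have hN20 : 0 ≤ N2 := norm_nonneg _
  set V1 := VF c t (fun s => logDeriv riemannZeta s * F s * WL t H s) with hV1
  set V3 := VF c t (fun s => om s * F s * WL t H s) with hV3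
  have hV1re : V1.re ≤ 2 / T + cL H * N2 := by
    have h1 := Complex.abs_re_le_norm
      (VI c (fun s => (logDeriv riemannZeta s * F s) * WL t H s) - V1)
    have h2 := h1.trans t1
    rw [Complex.sub_re] at h2
    have h3 := neg_le_abs ((VI c (fun s => (logDeriv riemannZeta s * F s) * WL t H s)).re - V1.re)
    have h4 : (VI c (fun s => (logDeriv riemannZeta s * F s) * WL t H s)).re ≤
      1 / T + cL H * N2 := hzp
    have h5 : 2 / T = 1 / T + 1 / T := by ring
    linarith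
  have hV2 : VF c t (fun s => (om s + logDeriv riemannZeta s) * F s * WL t H s) = V3 + V1 := by
    rw [hV3, hV1]
    unfold VF
    rw [← mul_add, ← intervalIntegral.integral_add]
    · congr 1
      apply intervalIntegral.integral_congr
      intro y _
      simp only
      ring
    · apply ContinuousOn.intervalIntegrable
      intro y hy
      rw [Set.uIcc_of_le (by linarith)] at hy
      have h1 : DifferentiableAt ℂ om (c + y * I) :=
        H51.om_diff hchi _ (by rw [hre]; linarith) (by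
          simp only [Complex.add_im, Complex.ofReal_im, Complex.mul_im, Complex.ofReal_re,
            Complex.I_im, Complex.I_re, mul_one, mul_zero, add_zero, zero_add]
          have := hy.1
          intro h
          linarith)
      have h2 : ContinuousAt (fun y : ℝ => om (c + y * I)) y :=
        ContinuousAt.comp (f := fun y : ℝ => (c + y * I : ℂ)) (g := om)
          h1.continuousAt hline.continuousAt
      exact ((h2.mul (hFd.continuous.comp hline).continuousAt).mul
        (hWc.comp hline).continuousAt).continuousWithinAt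
    · exact i1.intervalIntegrable
  rw [hV2] at hz
  have hQ := hT6 T t H hTT6 hR X d hX hA4 hd0
  set S := ∑ n ∈ Finset.Icc 1 X, d n ^ 2 / (n : ℝ) with hS
  set N1 := ‖NB (2 * X) T H d d t‖ with hN1
  have hN10 : 0 ≤ N1 := norm_nonneg _
  have hS0 : 0 ≤ S := Finset.sum_nonneg fun n _ => by positivity
  have hlogt : Real.log t ≤ Real.log T + 2 := by
    have h1 : Real.log t ≤ Real.log (4 * T) := Real.log_le_log (by linarith) r2
    rw [Real.log_mul (by norm_num) hT0.ne'] at h1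
    have h2 : Real.log 4 ≤ 2 := by
      rw [show (4 : ℝ) = 2 ^ (2 : ℕ) by norm_num, Real.log_pow]
      have := Real.log_two_lt_d9
      push_cast
      linarith
    linarith
  have hlogt0 : 0 < Real.log t := Real.log_pos (by linarith)
  have hom := om_line hchi hG (Real.log t) t H hlogt0.le (by linarith)
    (fun y h1 h2 => H59.om_re_le C t (by linarith) (by linarith) hC y h1 h2)
    (PD d X) F hFhalf i2 hFd.continuous _ hQ
  have hV3re : V3.re ≤ 1 + Real.log t * (cL H * (S + N1) + 1 / T) := by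
    have h1 := Complex.abs_re_le_norm (V3 - VF (1 / 2) t (fun s => om s * F s * WL t H s))
    have h2 := h1.trans hmv
    rw [Complex.sub_re] at h2
    have h3 := le_abs_self (V3.re - (VF (1 / 2) t (fun s => om s * F s * WL t H s)).re)
    linarith
  have hfin : (ZL t H F).re ≤ 1 + V1.re + (V3.re + V1.re) := by
    have h1 := Complex.abs_re_le_norm (ZL t H F - (V1 + (starRingEnd ℂ) (V3 + V1)))
    have h2 := h1.trans hz
    rw [Complex.sub_re, Complex.add_re, Complex.conj_re, Complex.add_re] at h2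
    have h3 := le_abs_self ((ZL t H F).re - (V1.re + (V3.re + V1.re)))
    linarith
  have hlT : (Real.log T + 2) * (1 / T) ≤ 1 := by
    rw [mul_one_div, div_le_one hT0]
    have := Real.log_le_sub_one_of_pos (show 0 < T / 4 by linarith)
    rw [Real.log_div hT0.ne' (by norm_num)] at this
    have h2 : Real.log 4 ≤ 2 := by
      rw [show (4 : ℝ) = 2 ^ (2 : ℕ) by norm_num, Real.log_pow]
      have := Real.log_two_lt_d9
      push_cast
      linarith
    linarith
  have hQ0 : 0 ≤ cL H * (S + N1) + 1 / T := by positivity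
  have h9 : Real.log t * (cL H * (S + N1) + 1 / T) ≤
      (Real.log T + 2) * (cL H * (S + N1) + 1 / T) := mul_le_mul_of_nonneg_right hlogt hQ0
  have h10 : 2 / T ≤ 1 := by rw [div_le_one hT0]; linarith
  have e1 : (Real.log T + 2) * (cL H * (S + N1) + 1 / T) =
      cL H * ((Real.log T + 2) * (S + N1)) + (Real.log T + 2) * (1 / T) := by ring
  have e2 : cL H * ((Real.log T + 2) * (S + N1) + 2 * N2) =
      cL H * ((Real.log T + 2) * (S + N1)) + 2 * (cL H * N2) := by ring
  rw [e2]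
  linarith

end Pool.Agent.Lib.MP_6bc78b_nt.LW.H81
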